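import Mathlib

/-!
Lattice polytopes, facet descriptions, adjoint polytopes, the rational codegree and lattice
width one.
-/

set_option autoImplicit false

namespace Pool.Agent.H169Z.QC

variable {n : ℕ}

/-- the value of the integral linear form `a` at the point `x` -/
def pair (a : Fin n → ℤ) (x : Fin n → ℝ) : ℝ := ∑ j, (a j : ℝ) * x j

/-- the convex hull of finitely many lattice points, affinely spanning the whole space -/
def IsLatticePolytope (P : Set (Fin n → ℝ)) : Prop :=
  (∃ V : Finset (Fin n → ℤ), P = convexHull ℝ ((fun v j => (v j : ℝ)) '' (V : Set (Fin n → ℤ)))) ∧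
    affineSpan ℝ P = ⊤

/-- `P` is the set of the points with `b i ≤ ⟨a i, x⟩` for all `i`, each `a i` is primitive, each
inequality defines a facet (a nonempty face of dimension `n - 1`), and no inequality is repeated. -/
structure IsFacetDescription (P : Set (Fin n → ℝ)) {m : ℕ} (a : Fin m → Fin n → ℤ)
    (b : Fin m → ℤ) : Prop where
  eq : P = {x | ∀ i, (b i : ℝ) ≤ pair (a i) x}
  primitive : ∀ i, Finset.univ.gcd (a i) = 1
  nonempty : ∀ i, {x ∈ P | pair (a i) x = b i}.Nonempty
  facet : ∀ i, Module.finrank ℝ (vectorSpan ℝ {x ∈ P | pair (a i) x = b i}) + 1 = n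
  irredundant : Function.Injective fun i => (a i, b i)

/-- the adjoint polytope: the points at lattice distance at least `s` from every facet -/
def adjoint {m : ℕ} (a : Fin m → Fin n → ℤ) (b : Fin m → ℤ) (s : ℝ) : Set (Fin n → ℝ) :=
  {x | ∀ i, s ≤ pair (a i) x - b i}

/-- the rational codegree: the inverse of the supremum of the `s > 0` with nonempty adjoint
polytope -/
noncomputable def qCodegree {m : ℕ} (a : Fin m → Fin n → ℤ) (b : Fin m → ℤ) : ℝ :=
  (sSup {s : ℝ | 0 < s ∧ (adjoint a b s).Nonempty})⁻¹

/-- some nonzero integral linear form has maximum minus minimum over `P` equal to one -/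
def LatticeWidthOne (P : Set (Fin n → ℝ)) : Prop :=
  ∃ l : Fin n → ℤ, l ≠ 0 ∧ ∃ lo hi : ℝ,
    IsLeast (pair l '' P) lo ∧ IsGreatest (pair l '' P) hi ∧ hi - lo = 1

end Pool.Agent.H169Z.QC
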