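import Pool.Agent.H169Z.QC.Defs

set_option autoImplicit false

open Finset

namespace Pool.Agent.H169Z.QC

variable {n : ℕ}

/-- the linear form as a linear map -/
def pairL (a : Fin n → ℤ) : (Fin n → ℝ) →ₗ[ℝ] ℝ where
  toFun := pair a
  map_add' x y := by simp [pair, mul_add, sum_add_distrib]
  map_smul' c x := by simp [pair, mul_sum, mul_left_comm]

theorem pairL_apply (a : Fin n → ℤ) (x : Fin n → ℝ) : pairL a x = pair a x := rfl

theorem pair_int (a v : Fin n → ℤ) : pair a (fun j => (v j : ℝ)) = ((∑ j, a j * v j : ℤ) : ℝ) := by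
  simp [pair]

theorem not_const {P : Set (Fin n → ℝ)} (hP : affineSpan ℝ P = ⊤) {a : Fin n → ℤ} (ha : a ≠ 0)
    (c : ℝ) : ¬ ∀ x ∈ P, pair a x = c := by
  intro h
  have h1 : ∀ x, pair a x = c := by
    intro x
    have hx : x ∈ affineSpan ℝ P := by rw [hP]; trivial
    refine affineSpan_induction (p := fun x => pair a x = c) hx h ?_
    intro t u v w hu hv hw
    rw [← pairL_apply] at *
    simp only [vsub_eq_sub, vadd_eq_add, map_add, map_smul, map_sub, hu, hv, hw, sub_self,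
      smul_zero, zero_add]
  apply ha
  funext j
  have h2 := h1 0
  have h3 := h1 (Pi.single j 1)
  rw [← h2] at h3
  simp [pair, Pi.single_apply] at h3
  exact h3

/-- if the width is not one, every facet has a point of the polytope at distance at least two -/
theorem far_point {P : Set (Fin n → ℝ)} (hP : IsLatticePolytope P) (hw : ¬ LatticeWidthOne P)
    {a : Fin n → ℤ} {b : ℤ} (ha : a ≠ 0) (hv : ∀ x ∈ P, (b : ℝ) ≤ pair a x)
    (hne : {x ∈ P | pair a x = b}.Nonempty) : ∃ x ∈ P, 2 ≤ pair a x - b := by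
  by_contra hc
  push Not at hc
  obtain ⟨⟨V, hV⟩, hsp⟩ := hP
  have mem : ∀ v ∈ V, (fun j => (v j : ℝ)) ∈ P := fun v hv => by
    rw [hV]; exact subset_convexHull _ _ ⟨v, hv, rfl⟩
  have ext : ∀ c : ℝ, (∀ v ∈ V, pair a (fun j => (v j : ℝ)) ≤ c) → ∀ x ∈ P, pair a x ≤ c := by
    intro c h x hx
    rw [hV] at hx
    refine convexHull_min (t := {x | pairL a x ≤ c}) ?_
      (convex_halfSpace_le (pairL a).isLinear c) hx
    rintro _ ⟨v, hv, rfl⟩
    exact h v hv
  have h01 : ∀ v ∈ V, pair a (fun j => (v j : ℝ)) = b ∨ pair a (fun j => (v j : ℝ)) = b + 1 := by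
    intro v hv'
    have h1 := hv _ (mem v hv')
    have h2 := hc _ (mem v hv')
    rw [pair_int] at *
    have h3 : b ≤ ∑ j, a j * v j := by exact_mod_cast h1
    have h4 : ∑ j, a j * v j - b < 2 := by exact_mod_cast h2
    have h5 : ∑ j, a j * v j = b ∨ ∑ j, a j * v j = b + 1 := by omega
    rcases h5 with h5 | h5
    · left; rw [h5]
    · right; rw [h5]; push_cast; ring
  have hex : ∃ v ∈ V, pair a (fun j => (v j : ℝ)) = b + 1 := by
    by_contra hn
    push Not at hn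
    refine not_const hsp ha b fun x hx => le_antisymm (ext b (fun v hv' => ?_) x hx) (hv x hx)
    rcases h01 v hv' with h | h
    · exact h.le
    · exact absurd h (hn v hv')
  obtain ⟨v, hv', h1⟩ := hex
  obtain ⟨x0, hx0, hx1⟩ := hne
  refine hw ⟨a, ha, b, b + 1, ⟨⟨x0, hx0, hx1⟩, ?_⟩, ⟨⟨_, mem v hv', h1⟩, ?_⟩, by ring⟩
  · rintro _ ⟨x, hx, rfl⟩
    exact hv x hx
  · rintro _ ⟨x, hx, rfl⟩
    refine ext _ (fun v hv' => ?_) x hx
    rcases h01 v hv' with h | h
    · rw [h]; linarith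
    · exact h.le

theorem adjoint_nonempty {P : Set (Fin n → ℝ)} (hP : IsLatticePolytope P)
    (hw : ¬ LatticeWidthOne P) {m : ℕ} {a : Fin m → Fin n → ℤ} {b : Fin m → ℤ}
    (h : IsFacetDescription P a b) : (adjoint a b (2 / (n + 1))).Nonempty := by
  have hv : ∀ i, ∀ x ∈ P, (b i : ℝ) ≤ pair (a i) x := fun i x hx => by
    rw [h.eq] at hx; exact hx i
  have ha : ∀ i, a i ≠ 0 := by
    intro i h0
    have h1 := h.primitive i
    rw [h0] at h1
    have h2 : (univ : Finset (Fin n)).gcd (0 : Fin n → ℤ) = 0 := by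
      rw [Finset.gcd_eq_zero_iff]; intro _ _; rfl
    rw [h2] at h1
    exact zero_ne_one h1
  choose p hp hp2 using fun i => far_point hP hw (ha i) (hv i) (h.nonempty i)
  have key := Convex.helly_theorem' (𝕜 := ℝ) (s := (univ : Finset (Fin m)))
    (F := fun i => {x : Fin n → ℝ | 2 / (n + 1) + (b i : ℝ) ≤ pairL (a i) x})
    (fun i _ => convex_halfSpace_ge (pairL (a i)).isLinear _) ?_
  · obtain ⟨x, hx⟩ := key
    refine ⟨x, fun i => ?_⟩
    have : 2 / ((n : ℝ) + 1) + (b i : ℝ) ≤ pair (a i) x := Set.mem_iInter₂.1 hx i (mem_univ i)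
    linarith
  · intro I _ hI
    refine ⟨((I.card : ℝ)⁻¹) • ∑ i ∈ I, p i, Set.mem_iInter₂.2 fun j hj => ?_⟩
    have hc : (0 : ℝ) < I.card := by exact_mod_cast card_pos.2 ⟨j, hj⟩
    have hc2 : (I.card : ℝ) ≤ n + 1 := by
      rw [Module.finrank_fin_fun] at hI
      exact_mod_cast hI
    have h1 : 2 ≤ ∑ i ∈ I, (pair (a j) (p i) - b j) :=
      (hp2 j).trans (single_le_sum (f := fun i => pair (a j) (p i) - b j)
        (fun i _ => sub_nonneg.2 (hv j _ (hp i))) hj)
    rw [sum_sub_distrib, sum_const, nsmul_eq_mul] at h1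
    show 2 / ((n : ℝ) + 1) + (b j : ℝ) ≤ pairL (a j) (((I.card : ℝ)⁻¹) • ∑ i ∈ I, p i)
    rw [map_smul, map_sum, smul_eq_mul]
    simp only [pairL_apply]
    have h2 : (2 : ℝ) / (n + 1) ≤ 2 / I.card := div_le_div_of_nonneg_left (by norm_num) hc hc2
    rw [inv_mul_eq_div, le_div_iff₀ hc]
    rw [le_div_iff₀ hc] at h2
    nlinarith

theorem width_one {P : Set (Fin n → ℝ)} (hP : IsLatticePolytope P)
    {m : ℕ} {a : Fin m → Fin n → ℤ} {b : Fin m → ℤ} (h : IsFacetDescription P a b)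
    (hμ : ((n : ℝ) + 1) / 2 < qCodegree a b) : LatticeWidthOne P := by
  by_contra hw
  have h1 := adjoint_nonempty hP hw h
  have hn : (0 : ℝ) < n + 1 := by positivity
  have h2 : (0 : ℝ) < 2 / (n + 1) := by positivity
  rw [qCodegree] at hμ
  by_cases hb : BddAbove {s : ℝ | 0 < s ∧ (adjoint a b s).Nonempty}
  · have h3 : 2 / ((n : ℝ) + 1) ≤ sSup {s : ℝ | 0 < s ∧ (adjoint a b s).Nonempty} :=
      le_csSup hb ⟨h2, h1⟩
    have h4 := inv_anti₀ h2 h3
    rw [inv_div] at h4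
    linarith
  · rw [Real.sSup_of_not_bddAbove hb, inv_zero] at hμ
    linarith

end Pool.Agent.H169Z.QC
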